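import Pool.Agent.AFL.Stmts

/-!
# Squad AFL, row PTY (helper81): the pair of block Y
-/

set_option autoImplicit false

open MeasureTheory ProbabilityTheory

open scoped BigOperators Matrix

noncomputable section

namespace Pool.Agent.AFL.H81

open Pool.Agent.LE.QF Pool.Agent.AFJ Pool.Agent.ABY Pool.Agent.AFL

/-- the situation of block Y at a point where the diagonal entries are close to the start -/
theorem ybl {X : Type} [Fintype X] [DecidableEq X] (F : Fl X) (c₀ C₀ : ℝ) (q : ℝ × (F.b → ℝ))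
    (hO : F.Ok c₀ C₀) (hN : Net (F.Gt q) (F.k q.1)) (ht0 : 0 ≤ q.1) (htT : q.1 ≤ F.T)
    (hdia : ∀ x ∈ F.A, ‖F.Gt q x x - F.G0 x x‖ ≤ F.δ) (Λ : ℝ) (hΛ0 : 0 ≤ Λ)
    (hΛ : ∀ a ∈ F.Rg, ∑ c ∈ F.b, KK (F.Gt q) a c ^ 2 ≤ Λ) :
    YBl (F.Gt q) (F.k q.1) (F.Pf q.1) F.w F.g (mub (F.Gt q) F.mb F.b) F.b F.U F.Rg c₀ C₀ F.κv
      F.μs Λ := by
  obtain ⟨hκv, hκv1, hr1, hc0, hc1, hC1, hNn, hδ, hL, hω, hω1, hε, hε1, hs1, hs2, hε₁, hε₁1, hδY,
    hn, hnL⟩ := hO.num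
  obtain ⟨hbU, hURg, hRgA⟩ := hO.hb
  have hbRg : F.b ⊆ F.Rg := hbU.trans hURg
  have hbA : F.b ⊆ F.A := hbRg.trans hRgA
  have hkb : ∀ t : ℝ, ∀ x ∈ F.b, F.k t x = F.k 0 x - t * F.g x := by
    intro t x hx
    unfold Fl.k Blk.kp Fl.g
    rw [if_pos hx, if_pos hx]
    ring
  have hkn : ∀ t : ℝ, ∀ x, x ∉ F.b → F.k t x = F.k 0 x := by
    intro t x hx
    unfold Fl.k Blk.kp
    rw [if_neg hx, if_neg hx]
  have hg0 : ∀ x ∈ F.A, 0 < F.g x := fun x hx => lt_of_lt_of_le hc0 (hO.hg x hx).1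
  have h4 : ∀ x, F.k F.T x ≤ F.k q.1 x := by
    intro x
    by_cases hx : x ∈ F.b
    · rw [hkb F.T x hx, hkb q.1 x hx]
      have h1 := mul_le_mul_of_nonneg_right htT (hg0 x (hbA hx)).le
      linarith
    · rw [hkn F.T x hx, hkn q.1 x hx]
  have hμs0 : 0 ≤ F.μs := by
    unfold Fl.μs
    positivity
  have h6 : ∀ x ∈ F.Rg, ‖F.Gt q x x - F.mb x‖ ≤ F.μs := by
    intro x hx
    have h7 : F.Gt q x x - F.mb x = (F.Gt q x x - F.G0 x x) + (F.G0 x x - F.mb x) := by ring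
    rw [h7]
    refine (norm_add_le _ _).trans ?_
    have h8 := hdia x (hRgA hx)
    have h9 := hO.hmu x hx
    unfold Fl.μs
    linarith
  have h9 : ∀ x ∈ F.Rg, (F.Gt q x x).im ≤ 3 / 2 * F.g x := by
    intro x hx
    have h10 := (Complex.abs_im_le_norm _).trans (h6 x hx)
    rw [Complex.sub_im] at h10
    have h11 : (F.Gt q x x).im ≤ F.g x + F.μs := by
      have h12 := (abs_le.1 h10).2
      unfold Fl.g
      linarith
    have h12 : F.μs ≤ c₀ / 2 := by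
      have h13 := hO.hδ
      unfold Fl.μs
      linarith
    have h13 := (hO.hg x (hRgA hx)).1
    linarith
  obtain ⟨hP0, hPU, hPb, hP2⟩ := hO.hP
  obtain ⟨hw1, hw2⟩ := hO.hw
  have hPf : ∀ x, F.Pf q.1 x ≤ F.P0 x := by
    intro x
    unfold Fl.Pf ind
    split_ifs
    · linarith
    · linarith
  refine ⟨hN, ⟨hc0, hc1, hC1, hκv, hκv1, hμs0, hΛ0⟩, ⟨hbU, hURg⟩, ?_, ⟨?_, ?_, ?_⟩, ⟨?_, hw2⟩, ?_,
    ⟨?_, ?_⟩, hΛ⟩
  · intro a ha
    exact ⟨(hO.hg a (hRgA ha)).1, (hO.hg a (hRgA ha)).2, h9 a ha⟩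
  · intro x
    unfold Fl.Pf ind
    split_ifs with h
    · have := hPb x h
      linarith
    · have := hP0 x
      linarith
  · intro x hx
    have hxb : x ∉ F.b := fun h => hx (hbU h)
    unfold Fl.Pf ind
    rw [if_neg hxb, hPU x hx]
    ring
  · intro x hx
    have h1 := hP2 x hx
    have h2 := mul_le_mul_of_nonneg_right (hPf x) (hg0 x (hRgA (hURg hx))).le
    have h3 := h4 x
    linarith
  · intro x
    exact ⟨(hw1 x).1, (hw1 x).2.trans (h4 x)⟩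
  · intro c hc
    exact (hO.hv c (hbRg hc)).trans (h4 c)
  · intro c hc
    unfold mub
    rw [if_pos hc]
    exact h6 c (hbRg hc)
  · intro c hc
    unfold mub
    rw [if_neg hc]

/-- row PTY -/
theorem pty : PtyStmt := by
  intro JAL JMA BKJ ENB CMP VEX TSP VJT VGR VDR VBL _EUB PTA c₀ C₀
  obtain ⟨C, hC1, H⟩ := VBL JAL JMA BKJ ENB CMP VEX TSP VJT VGR VDR c₀ C₀
  refine ⟨C, hC1, ?_⟩
  intro X _ _ F q hO hBJ hN hN0
  obtain ⟨hκv, hκv1, hr1, hc0, hc1, hC1', hNn, hδ, hL, -⟩ := hO.num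
  obtain ⟨hbU, hURg, hRgA⟩ := hO.hb
  have hPf : ∀ x, ContDiffAt ℝ 2 (fun t => F.Pf t x) q.1 ∧ F.Pf q.1 x = F.Pf q.1 x ∧
      deriv (fun t => F.Pf t x) q.1 = -ind F.b x := by
    intro x
    unfold Fl.Pf
    refine ⟨?_, rfl, ?_⟩
    · exact contDiffAt_const.sub (contDiffAt_const.mul contDiffAt_id)
    · have h1 : HasDerivAt (fun t : ℝ => F.P0 x - ind F.b x * t) (0 - ind F.b x * 1) q.1 :=
        (hasDerivAt_const _ _).sub ((hasDerivAt_id _).const_mul _)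
      rw [h1.deriv]
      ring
  refine ⟨?_, ?_⟩
  · intro hPt a ha
    obtain ⟨ht0, htT⟩ := hPt.ht
    have hdia : ∀ x ∈ F.A, ‖F.Gt q x x - F.G0 x x‖ ≤ F.δ := by
      intro x hx
      by_cases hx1 : x ∈ F.Q1
      · exact hPt.ent x hx1 x hx1
      · exact ((hO.loc q ht0 htT).1 x hx hx1).2
    obtain ⟨-, -, -, -, -, -, -, -, -, -, h11, -⟩ := PTA _EUB X F c₀ C₀ q hO hPt hN hN0
    have hY := ybl F c₀ C₀ q hO hN ht0 htT hdia F.L hL.le fun a ha => h11 a (hRgA ha)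
    exact H X F.b q F.Gt F.k (F.Gt q) (F.k q.1) F.mb F.Pf (F.Pf q.1) F.w F.g F.U F.Rg F.κv F.μs
      F.L hBJ hPf hY a ha
  · intro ht0 htT hent a ha
    have hdia : ∀ x ∈ F.A, ‖F.Gt q x x - F.G0 x x‖ ≤ F.δ := by
      intro x hx
      by_cases hx1 : x ∈ F.Q1
      · exact hent x hx1
      · exact ((hO.loc q ht0 htT).1 x hx hx1).2
    have hnn : ∀ a, 0 ≤ ∑ c ∈ F.b, KK (F.Gt q) a c ^ 2 := fun a =>
      Finset.sum_nonneg fun c _ => sq_nonneg _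
    have hY := ybl F c₀ C₀ q hO hN ht0 htT hdia (∑ a ∈ F.Rg, ∑ c ∈ F.b, KK (F.Gt q) a c ^ 2)
      (Finset.sum_nonneg fun a _ => hnn a)
      fun a ha => Finset.single_le_sum (f := fun a => ∑ c ∈ F.b, KK (F.Gt q) a c ^ 2)
        (fun a _ => hnn a) ha
    obtain ⟨⟨g1, l1, j1, -⟩, g2, l2, j2, -⟩ := H X F.b q F.Gt F.k (F.Gt q) (F.k q.1) F.mb F.Pf
      (F.Pf q.1) F.w F.g F.U F.Rg F.κv F.μs _ hBJ hPf hY a ha
    exact ⟨j1.sm, j2.sm⟩

end Pool.Agent.AFL.H81
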